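import Pool.Agent.H26.DM.Gen

set_option autoImplicit false

/-!
# Demushkin pro-`2` groups of rank three are not self-similar of index two

Let `G` be a Demushkin pro-`2` group with `d(G) = 3` and let `θ` be its dualizing character, that is
the continuous character such that crossed homomorphisms `G → (ℤ/2^j)(θ)` lift to crossed
homomorphisms `G → (ℤ/2^(j+1))(θ)` (Serre, Labute). If `θ` takes a value different from `±1`, then `G`
is not self-similar of index two. By Labute's classification this leaves one group with `d(G) = 3`,
the pro-`2` completion of the fundamental group of the closed surface with Euler characteristic `-1`.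

Sketch of the proof. Let `φ : H → G` be the virtual endomorphism of a faithful self-similar action on
the binary tree which is transitive on the first level. As in the starting library (which treats the
group `GG 1`), `φ` is an isomorphism onto a subgroup `K` of index two, and `θ ∘ φ = θ` because the
dualizing character of `G` modulo `2^k` is unique and restricts to open subgroups. Take the first `k`
such that `θ` is not `±1` modulo `2^k`. The sign `w` of `θ` satisfies `a ∪ a = w ∪ a` for all `a` in
`H¹(G, ℤ/2)`; as `d(G)` is odd, it follows that `w ∪ w ≠ 0`. So the image of `θ` modulo `2^k` is not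
`{1, 1 + 2^(k-1)}`, where `w = 0`; and it is not `{1, -1 + 2^(k-1)}`, since in this case a crossed
homomorphism `c` with `2 c = θ - 1` shows that `w` lifts to `ℤ/4` and `w ∪ w = 0`. Hence four of the
eight elements of `H¹(G, ℤ/2)` factor through `θ`, and `H ∩ K` is `H` or the kernel in `H` of one of
these; it is a nontrivial normal subgroup of `G` invariant under `φ`.
-/

namespace Pool.Agent.Results.MP_33d618_al.RankThree

open Pool.Agent.H26.DM
open Pool.Agent.K7.H77.Dem (IsDemushkin d IsSelfSimilarOfIndex)

/-- Let `G` be a Demushkin pro-`2` group with `d(G) = 3` which has a dualizing character modulo some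
power of `2` with a value different from `±1`. Then `G` is not self-similar of index `2`. For `n ≥ 1`
the pro-`2` completion `GG n` of `⟨x, y, z | x² y^(4n+1) z = z y⟩` is a Demushkin group with
`d(GG n) = 3`, it is not self-similar of index `2`, and `GG n` and `GG m` are not isomorphic as
topological groups if `n` and `m` have different `2`-adic valuations. -/
theorem result :
    (∀ (G : Type*) [Group G] [TopologicalSpace G] [IsTopologicalGroup G],
      IsDemushkin 2 G → d 2 G = 3 →
      ∀ (K : ℕ) (θ : G → ZMod (2 ^ (K + 1))), IsDualizing θ → (∃ g, θ g ≠ 1 ∧ θ g ≠ -1) →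
        ¬ IsSelfSimilarOfIndex 2 G) ∧
    (∀ n : ℕ, 1 ≤ n → IsDemushkin 2 (GG n) ∧ d 2 (GG n) = 3 ∧ ¬ IsSelfSimilarOfIndex 2 (GG n)) ∧
    ∀ n m : ℕ, 1 ≤ n → 1 ≤ m → padicValNat 2 n ≠ padicValNat 2 m → IsEmpty (GG n ≃ₜ* GG m) :=
  ⟨fun _ _ _ _ hD hd _ _ hθ hne => not_selfSimilar hD hd hθ.1 hθ.2 hne,
    fun _ hn => ⟨isDemushkin_GG, d_GG, not_selfSimilar_GG hn⟩,
    fun _ _ hn hm h => isEmpty_iso hn hm h⟩

end Pool.Agent.Results.MP_33d618_al.RankThree
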